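import Pool.Agent.Lib.MP_601e9e_an.Cayley
import Pool.Agent.Lib.MP_601e9e_an.Trans

/-!
For every `k` there is a proper holomorphic map between unit balls, of class `C^k` up to the
boundary, with a component that is algebraic on no open piece of the sphere.
-/

set_option autoImplicit false

open Complex Metric Set Pool.Agent.Lib.MP_601e9e_an

namespace Pool.Agent.Lib.MP_601e9e_an.Variants.FiniteSmoothness

theorem result (n k : ℕ) (hn : 2 ≤ n) :
    ∃ (N : ℕ) (f : EuclideanSpace ℂ (Fin n) → EuclideanSpace ℂ (Fin N)),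
      DifferentiableOn ℂ f (Metric.ball 0 1) ∧ ContDiffOn ℝ k f (Metric.closedBall 0 1) ∧
      Set.MapsTo f (Metric.ball 0 1) (Metric.ball 0 1) ∧
      Set.MapsTo f (Metric.sphere 0 1) (Metric.sphere 0 1) ∧
      ∃ j : Fin N, ∀ U : Set (EuclideanSpace ℂ (Fin n)), IsOpen U →
        (U ∩ Metric.sphere 0 1).Nonempty → ∀ P : MvPolynomial (Option (Fin n)) ℂ,
          (∀ z ∈ U ∩ Metric.sphere 0 1,
            MvPolynomial.eval (fun o => Option.elim o (f z j) fun i => z i) P = 0) → P = 0 := by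
  obtain ⟨d, rfl⟩ : ∃ d, n = d + 1 := ⟨n - 1, by omega⟩
  obtain ⟨κ₂, _, D, G, hG1, hG2, hG3⟩ := ball_part d k
  obtain ⟨κ₁, _, F, hF1, hF2, hF3⟩ := poly_part d D
  let Φ : Eb d → Option (κ₁ ⊕ κ₂) → ℂ := fun Z a =>
    a.elim (hh D Z * (cexp (Z 0) / 1000)) (Sum.elim (F Z) (G Z))
  let e := Fintype.equivFin (Option (κ₁ ⊕ κ₂))
  let f : Eb d → EuclideanSpace ℂ (Fin (Fintype.card (Option (κ₁ ⊕ κ₂)))) := fun Z =>
    WithLp.toLp 2 fun j => Φ Z (e.symm j)
  have h0 : ContDiff ℂ k fun Z : Eb d => hh D Z * (cexp (Z 0) / 1000) := by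
    unfold hh
    fun_prop
  have h0' : Differentiable ℂ fun Z : Eb d => hh D Z * (cexp (Z 0) / 1000) := by
    unfold hh
    fun_prop
  have hd : DifferentiableOn ℂ f (ball 0 1) := by
    refine differentiableOn_euclidean.2 fun j => ?_
    change DifferentiableOn ℂ (fun Z => Φ Z (e.symm j)) _
    rcases e.symm j with _ | i | i
    · exact h0'.differentiableOn
    · exact (differentiable_pi.1 hF1 i).differentiableOn
    · exact differentiableOn_pi.1 hG1 i
  have hc : ContDiffOn ℝ k f (closedBall 0 1) := by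
    refine (contDiffOn_piLp 2).2 fun j => ?_
    change ContDiffOn ℝ k (fun Z => Φ Z (e.symm j)) _
    rcases e.symm j with _ | i | i
    · exact (h0.restrict_scalars ℝ).contDiffOn
    · exact (contDiff_pi.1 (hF2 k) i).contDiffOn
    · exact contDiffOn_pi.1 hG2 i
  have hs : MapsTo f (sphere 0 1) (sphere 0 1) := by
    intro Z hZ
    rw [mem_sphere_zero_iff_norm, ← sq_eq_sq₀ (norm_nonneg _) zero_le_one,
      EuclideanSpace.norm_sq_eq]
    change ∑ j, ‖Φ Z (e.symm j)‖ ^ 2 = _
    rw [e.symm.sum_comp (fun a => ‖Φ Z a‖ ^ 2), Fintype.sum_option, Fintype.sum_sum_type]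
    have h1 := hF3 Z hZ
    have h2 := hG3 Z hZ
    simp only [nsq] at h1 h2
    simp only [Φ, Option.elim, Sum.elim_inl, Sum.elim_inr, norm_mul, mul_pow]
    rw [h2]
    linarith
  have ht : ∀ U : Set (Eb d), IsOpen U →
      (U ∩ sphere 0 1).Nonempty → ∀ P : MvPolynomial (Option (Fin (d + 1))) ℂ,
        (∀ z ∈ U ∩ sphere 0 1,
          MvPolynomial.eval (fun o => Option.elim o (f z (e none)) fun i => z i) P = 0) →
          P = 0 := by
    intro U hU hne P hP
    refine transcendental d D hU hne P fun Z hZ => ?_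
    have h1 : f Z (e none) = hh D Z * (cexp (Z 0) / 1000) := by
      change Φ Z (e.symm (e none)) = _
      rw [e.symm_apply_apply]
      rfl
    rw [← h1]
    exact hP Z hZ
  refine ⟨_, f, hd, hc, ?_, hs, e none, ht⟩
  have hcl : closure (ball (0 : Eb d) 1) = closedBall 0 1 := closure_ball 0 one_ne_zero
  have hdc : DiffContOnCl ℂ f (ball 0 1) := ⟨hd, hcl ▸ hc.continuousOn⟩
  have hle : ∀ Z ∈ ball (0 : Eb d) 1, ‖f Z‖ ≤ 1 := fun Z hZ =>
    Complex.norm_le_of_forall_mem_frontier_norm_le isBounded_ball hdc (fun z hz => by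
      rw [frontier_ball 0 one_ne_zero] at hz
      exact (mem_sphere_zero_iff_norm.1 (hs hz)).le) (subset_closure hZ)
  intro Z hZ
  rw [mem_ball_zero_iff]
  refine lt_of_le_of_ne (hle Z hZ) fun h1 => ?_
  have hmax : IsMaxOn (norm ∘ f) (ball 0 1) Z := fun z hz => by
    change ‖f z‖ ≤ ‖f Z‖
    rw [h1]
    exact hle z hz
  have h2 := Complex.eqOn_of_isPreconnected_of_isMaxOn_norm (convex_ball 0 1).isPreconnected
    isOpen_ball hd hZ hmax
  have h3 : EqOn f (Function.const _ (f Z)) (closedBall 0 1) :=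
    h2.of_subset_closure hc.continuousOn continuousOn_const ball_subset_closedBall hcl.ge
  have h4 := ht univ isOpen_univ (by
      rw [univ_inter]
      exact NormedSpace.sphere_nonempty.2 zero_le_one)
    (MvPolynomial.X none - MvPolynomial.C (f Z (e none))) (fun z hz => by
      rw [h3 (sphere_subset_closedBall hz.2)]
      simp)
  have h5 := congrArg (MvPolynomial.eval fun _ => f Z (e none) + 1) h4
  simp at h5

end Pool.Agent.Lib.MP_601e9e_an.Variants.FiniteSmoothness
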